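import Pool.Agent.H766R2.RR9
import Pool.Agent.H766R2.CritDeg

namespace Pool.Agent.Results.MP_76db9d_co.CriticalDegree

/-- **Degrees of Ramsey-critical `(k+1,k)`-graphs.** Let `k ≥ 2` and let `N = R(k+1,k)`. Every
graph on `N - 1` vertices without `(k+1)`-clique and without independent set of size `k` has a vertex
of degree at least `N/30 - 1`, and its average degree is at least `N/10^8`. -/
theorem result :
    ∀ k : ℕ, 2 ≤ k → ∀ N : ℕ,
      IsLeast {n : ℕ | ∀ G : SimpleGraph (Fin n), ¬ G.CliqueFree (k + 1) ∨ ¬ Gᶜ.CliqueFree k} N →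
      ∀ G : SimpleGraph (Fin (N - 1)), G.CliqueFree (k + 1) → Gᶜ.CliqueFree k →
        (∃ v : Fin (N - 1), (N : ℝ) / 30 - 1 ≤ ((G.neighborSet v).ncard : ℝ)) ∧
        (N : ℝ) * ((N : ℝ) - 1) ≤ 10 ^ 8 * ∑ v : Fin (N - 1), ((G.neighborSet v).ncard : ℝ) := by
  classical
  intro k hk N hN G hG1 hG2
  -- N = R (k+1) k
  have hspec := H766R2.RR.R_spec (k := k + 1) (l := k) (by omega) (by omega)
  have hequiv : ∀ n : ℕ, (∀ G : SimpleGraph (Fin n), ¬ G.CliqueFree (k + 1) ∨ ¬ Gᶜ.CliqueFree k) ↔
      H766R2.RR.Arrows n (k + 1) k := by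
    intro n
    unfold H766R2.RR.Arrows SimpleGraph.CliqueFree
    constructor
    · intro h G
      rcases h G with h | h
      · left
        push Not at h
        exact h
      · right
        push Not at h
        exact h
    · intro h G
      rcases h G with ⟨s, hs⟩ | ⟨s, hs⟩
      · exact Or.inl (fun hc => hc s hs)
      · exact Or.inr (fun hc => hc s hs)
  have hN0 : 0 < N := by
    rcases Nat.eq_zero_or_pos N with rfl | h
    · exfalso
      rcases (hequiv 0).mp hN.1 ⊥ with ⟨s, hs⟩ | ⟨s, hs⟩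
      · have := hs.card_eq
        have h2 : s = ∅ := Finset.eq_empty_of_isEmpty s
        rw [h2, Finset.card_empty] at this
        omega
      · have := hs.card_eq
        have h2 : s = ∅ := Finset.eq_empty_of_isEmpty s
        rw [h2, Finset.card_empty] at this
        omega
    · exact h
  have hNR : H766R2.RR.R (k + 1) k = N := by
    apply le_antisymm
    · exact H766R2.RR.R_le hN0 ((hequiv N).mp hN.1)
    · exact hN.2 ((hequiv _).mpr hspec.2)
  -- N = R k (k+1) in the notation of helper818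
  have hequiv2 : ∀ n : ℕ, H766R2.RR.Arrows n (k + 1) k ↔ H818R2.Ram.Arrows n k (k + 1) := by
    intro n
    constructor
    · intro h G
      rcases h Gᶜ with h | h
      · exact Or.inr h
      · rw [compl_compl] at h
        exact Or.inl h
    · intro h G
      rcases h Gᶜ with h | h
      · exact Or.inr h
      · rw [compl_compl] at h
        exact Or.inl h
  have hNR2 : H818R2.Ram.R k (k + 1) = N := by
    apply le_antisymm
    · exact H818R2.Ram.R_le ((hequiv2 N).mp ((hequiv N).mp hN.1))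
    · exact hN.2 ((hequiv _).mpr ((hequiv2 _).mpr (H818R2.Ram.arrows_R k (k + 1))))
  obtain ⟨n, rfl⟩ : ∃ n, N = n + 1 := ⟨N - 1, by omega⟩
  have hmain := H766R2.RR.critical hk (n := n) hNR G (fun s hs => hG1 s hs) (fun s hs => hG2 s hs)
  have hdg : ∀ v : Fin n, H766R2.RR.dg G Finset.univ v = ((G.neighborSet v).ncard : ℝ) := by
    intro v
    unfold H766R2.RR.dg
    congr 1
    rw [Set.ncard_eq_toFinset_card']
    congr 1
    ext w
    simp
  have hsum : ((n + 1 : ℕ) : ℝ) * (((n + 1 : ℕ) : ℝ) - 1)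
      ≤ 10 ^ 8 * ∑ v : Fin n, ((G.neighborSet v).ncard : ℝ) := by
    rw [← Finset.sum_congr rfl (fun v _ => hdg v)]
    have e : ((n + 1 : ℕ) : ℝ) * (((n + 1 : ℕ) : ℝ) - 1) = ((n : ℝ) + 1) * n := by
      push_cast
      ring
    have e2 : (10 : ℝ) ^ 8 = 100000000 := by norm_num
    rw [e, e2]
    exact hmain
  refine ⟨?_, hsum⟩
  -- n > 0
  have hn0 : 0 < n := by
    have h1 := H766R2.RR.R_lt (k := k) (l := k) (by omega) hk
    have h2 := H766R2.RR.R_pos (k := k) (l := k) (by omega) (by omega)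
    omega
  have hne : (Finset.univ : Finset (Fin n)).Nonempty := ⟨⟨0, hn0⟩, Finset.mem_univ _⟩
  obtain ⟨v, -, hv⟩ := Finset.exists_max_image (Finset.univ : Finset (Fin n))
    (fun v => (G.neighborSet v).ncard) hne
  refine ⟨v, ?_⟩
  set D := (G.neighborSet v).ncard with hDdef
  have hcm := H766R2.CritDeg.critical_max (k := k) (n := n) (D := D) hk hNR2.symm (G := Gᶜ)
    (by
      rintro ⟨s, -, hs⟩
      exact hG2 s hs)
    (by
      rintro ⟨s, -, hs⟩
      rw [compl_compl] at hs
      exact hG1 s hs)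
    (by
      intro w S hS
      rw [compl_compl] at hS
      have h1 : S.card ≤ (G.neighborSet w).ncard := by
        rw [← Set.ncard_coe_finset]
        apply Set.ncard_le_ncard _ (Set.toFinite _)
        intro u hu
        exact hS u hu
      exact h1.trans (hv w (Finset.mem_univ _)))
  rw [hNR2] at hcm
  have h3 : ((n + 1 : ℕ) : ℝ) ≤ 30 * ((D : ℝ) + 1) := by exact_mod_cast hcm
  have h4 : ((n + 1 : ℕ) : ℝ) / 30 ≤ (D : ℝ) + 1 := by
    rw [div_le_iff₀ (by norm_num)]
    linarith
  linarith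

end Pool.Agent.Results.MP_76db9d_co.CriticalDegree
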